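import Mathlib

set_option autoImplicit false

namespace Pool.Agent.Results.MP_fca4fc_co.SixSeventhsFails

open Finset

/-! ### The L-domination game -/

/-- In the position in which the vertices of `P` have been chosen, `v` is a legal choice: it has
not been chosen, and its closed neighbourhood contains a vertex `u` with no chosen neighbour. -/
def Legal {V : Type} (G : SimpleGraph V) (P : Finset V) (v : V) : Prop :=
  v ∉ P ∧ ∃ u, (u = v ∨ G.Adj v u) ∧ ∀ w ∈ P, ¬ G.Adj w u

/-- `DomForces G b k P`: in the position in which the vertices of `P` have been chosen and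
Dominator (if `b = true`) or Staller (if `b = false`) is to choose, Dominator can force that the
game ends after at most `k` further choices. -/
inductive DomForces {V : Type} [DecidableEq V] (G : SimpleGraph V) :
    Bool → ℕ → Finset V → Prop
  | ended (b : Bool) (k : ℕ) (P : Finset V) : (∀ v, ¬ Legal G P v) → DomForces G b k P
  | dom (k : ℕ) (P : Finset V) (v : V) : Legal G P v → DomForces G false k (insert v P) →
      DomForces G true (k + 1) P
  | sta (k : ℕ) (P : Finset V) : (∀ v, Legal G P v → DomForces G true k (insert v P)) →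
      DomForces G false (k + 1) P

/-- `γ_Lg(G)`: the least number of choices within which Dominator, moving first, can force the
L-domination game on `G` to end. -/
noncomputable def gammaLg {V : Type} [DecidableEq V] (G : SimpleGraph V) : ℕ :=
  sInf {k | DomForces G true k ∅}

/-! ### The graphs -/

/-- The tree on 11 vertices with edges 01, 05, 07, 09, 12, 14, 23, 56, 78, 9 10. -/
def tree : SimpleGraph (Fin 11) :=
  SimpleGraph.fromRel (fun a b => (a, b) ∈ ([(0, 1), (0, 5), (0, 7), (0, 9), (1, 2), (1, 4),
    (2, 3), (5, 6), (7, 8), (9, 10)] : List (Fin 11 × Fin 11)))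

instance : DecidableRel tree.Adj := by
  unfold tree; infer_instance

/-- The graph obtained from `H` by identifying each vertex of `H` with the vertex `0` of its own
copy of `tree`. -/
def attach {k : ℕ} (H : SimpleGraph (Fin k)) : SimpleGraph (Fin k × Fin 11) where
  Adj x y := (x.1 = y.1 ∧ tree.Adj x.2 y.2) ∨ (x.2 = 0 ∧ y.2 = 0 ∧ H.Adj x.1 y.1)
  symm := ⟨fun x y h => by
    rcases h with ⟨h1, h2⟩ | ⟨h1, h2, h3⟩
    · exact Or.inl ⟨h1.symm, h2.symm⟩
    · exact Or.inr ⟨h2, h1, h3.symm⟩⟩
  loopless := ⟨fun x h => by
    rcases h with ⟨_, h2⟩ | ⟨_, _, h3⟩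
    · exact tree.loopless.irrefl _ h2
    · exact H.loopless.irrefl _ h3⟩

/-! ### Local tables -/

/-- Neighbour masks of `tree`. -/
def nbm (a : ℕ) : ℕ := [674, 21, 10, 4, 2, 65, 32, 257, 128, 1025, 512].getD a 0

/-- The neighbour of a leaf. -/
def supOf (a : ℕ) : ℕ := [0, 0, 0, 2, 1, 0, 5, 0, 7, 0, 9].getD a 0

/-- `1` on the vertices which are not support vertices. -/
def wst (a : ℕ) : ℕ := [1, 0, 0, 1, 1, 0, 1, 0, 1, 0, 1].getD a 0

/-- The leaves. -/
def leaves : List ℕ := [3, 4, 6, 8, 10]

/-- The table of the local potentials. -/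
def tab : ℕ := 0x1111220011011200111123000000000011112200110112001111230202020202131324021303140213132512121212122323341223132412232335000000000011112200110112001111230000000000111122001101120011112302020202021313240213031402131325121212121223233412231324122323350202020202131324021303140213132502020202021313240213031402131325030303030314142503140314031414261414141414252536142514251425253712121212122323341223132412232335121212121223233412231324122323351414141414252536142514251425253724242424243535462435253624353547000000000011112200110112001111230000000000111122001101120011112302020202021313240213031402131325121212121223233412231324122323350000000000111122001101120011112300000000001111220011011200111123020202020213132402130314021313251212121212232334122313241223233502020202021313240213031402131325020202020213132402130314021313250303030303141425031403140314142614141414142525361425142514252537121212121223233412231324122323351212121212232334122313241223233514141414142525361425142514252537242424242435354624352536243535470202020202131324021303140213132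502020202021313240213031402131325030303030314142503140314031414261414141414252536142514251425253702020202021313240213031402131325020202020213132402130314021313250303030303141425031403140314142614141414142525361425142514252537030303030314142503140314031414260303030303141425031403140314142603030303031414250314031403151426141414141425253614251425142625371414141414252536142514251425253714141414142525361425142514252537141414141425253614251425142625372525252525363647253625362536364812121212122323341223132412232335121212121223233412231324122323351414141414252536142514251425253724242424243535462435253624353547121212121223233412231324122323351212121212232334122313241223233514141414142525361425142514252537242424242435354624352536243535471414141414252536142514251425253714141414142525361425142514252537141414141425253614251425142625372525252525363647253625362536364824242424243535462435253624353547242424242435354624352536243535472525252525363647253625362536364836363636364747583647364736474759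

/-- The local potential. -/
def pot (s : ℕ) : ℕ := (tab >>> (4 * s)) % 16

/-- The leaf `w` is a legal choice in the local position `s`. -/
def rl (s w : ℕ) : Bool :=
  !s.testBit w && ((nbm w &&& s == 0) || (nbm (supOf w) &&& s == 0))

/-- The check of the table at the local position `s`. -/
def chk (s : ℕ) : Bool :=
  (List.range 11).all (fun v => s.testBit v ||
    (Nat.ble (pot s) (2 * wst v + pot (s ||| 2 ^ v) + 1) ||
      leaves.any (fun w => rl (s ||| 2 ^ v) w &&
        Nat.ble (pot s) (2 * wst v + 2 + pot ((s ||| 2 ^ v) ||| 2 ^ w))))) &&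
  (pot s == 0 || leaves.any (fun w => rl s w &&
    Nat.ble (pot s + pot s % 2) (2 + pot (s ||| 2 ^ w))))

set_option maxRecDepth 100000 in
theorem chk_all : (List.range 2048).all chk = true := by decide +kernel

theorem chk_of_lt {s : ℕ} (hs : s < 2048) : chk s = true := by
  have h := chk_all
  rw [List.all_eq_true] at h
  exact h s (List.mem_range.mpr hs)

theorem chk_move {s v : ℕ} (hs : s < 2048) (hv : v < 11) (hn : s.testBit v = false) :
    pot s ≤ 2 * wst v + pot (s ||| 2 ^ v) + 1 ∨
    ∃ w ∈ leaves, rl (s ||| 2 ^ v) w = true ∧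
      pot s ≤ 2 * wst v + 2 + pot ((s ||| 2 ^ v) ||| 2 ^ w) := by
  have h := chk_of_lt hs
  unfold chk at h
  rw [Bool.and_eq_true, List.all_eq_true] at h
  have h1 := h.1 v (List.mem_range.mpr hv)
  rw [hn, Bool.false_or, Bool.or_eq_true, List.any_eq_true] at h1
  rcases h1 with h1 | ⟨w, hw, h1⟩
  · exact Or.inl (Nat.le_of_ble_eq_true h1)
  · rw [Bool.and_eq_true] at h1
    exact Or.inr ⟨w, hw, h1.1, Nat.le_of_ble_eq_true h1.2⟩

theorem chk_pass {s : ℕ} (hs : s < 2048) (hp : pot s ≠ 0) :
    ∃ w ∈ leaves, rl s w = true ∧ pot s + pot s % 2 ≤ 2 + pot (s ||| 2 ^ w) := by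
  have h := chk_of_lt hs
  unfold chk at h
  rw [Bool.and_eq_true, Bool.or_eq_true, List.any_eq_true] at h
  rcases h.2 with h1 | ⟨w, hw, h1⟩
  · exact absurd (by simpa using h1) hp
  · rw [Bool.and_eq_true] at h1
    exact ⟨w, hw, h1.1, Nat.le_of_ble_eq_true h1.2⟩

theorem tree_adj : ∀ a b : Fin 11, tree.Adj a b ↔ (nbm a).testBit b = true := by decide

theorem leaf_facts : ∀ w ∈ leaves, w < 11 ∧ supOf w < 11 ∧ w ≠ 0 ∧ supOf w ≠ 0 ∧ wst w = 1 ∧
    (nbm w).testBit (supOf w) = true := by decide

theorem wst_le : ∀ a : Fin 11, wst a ≤ 1 := by decide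

/-- Every support vertex has a leaf. -/
theorem sup_facts : ∀ a : Fin 11, wst a = 0 → a ≠ 0 ∧ ∃ b : Fin 11, b ≠ 0 ∧ tree.Adj a b ∧
    ∀ c : Fin 11, tree.Adj c b → c = a := by decide

/-! ### Local states -/

/-- The local state of the copy `i` of the tree, as a bit mask. -/
def st {k : ℕ} (P : Finset (Fin k × Fin 11)) (i : Fin k) : ℕ :=
  Nat.ofBits (fun a : Fin 11 => decide ((i, a) ∈ P))

theorem testBit_st {k : ℕ} (P : Finset (Fin k × Fin 11)) (i : Fin k) (a : Fin 11) :
    (st P i).testBit a = decide ((i, a) ∈ P) :=
  Nat.testBit_ofBits_lt _ _ a.2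

theorem st_lt {k : ℕ} (P : Finset (Fin k × Fin 11)) (i : Fin k) : st P i < 2048 :=
  Nat.ofBits_lt_two_pow _

theorem st_insert_self {k : ℕ} (P : Finset (Fin k × Fin 11)) (i : Fin k) (a : Fin 11) :
    st (insert (i, a) P) i = st P i ||| 2 ^ (a : ℕ) := by
  apply Nat.eq_of_testBit_eq
  intro j
  rw [Nat.testBit_or, Nat.testBit_two_pow]
  by_cases hj : j < 11
  · have h1 := testBit_st (insert (i, a) P) i ⟨j, hj⟩
    have h2 := testBit_st P i ⟨j, hj⟩
    simp only at h1 h2
    rw [h1, h2]
    by_cases hja : (⟨j, hj⟩ : Fin 11) = a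
    · subst hja; simp
    · have : (a : ℕ) ≠ j := fun h => hja (Fin.ext h.symm)
      simp [hja, this]
  · have h1 : (st (insert (i, a) P) i).testBit j = false :=
      Nat.testBit_ofBits_ge _ _ (by omega)
    have h2 : (st P i).testBit j = false := Nat.testBit_ofBits_ge _ _ (by omega)
    have : (a : ℕ) ≠ j := by have := a.2; omega
    rw [h1, h2]; simp [this]

theorem st_insert_ne {k : ℕ} (P : Finset (Fin k × Fin 11)) {i j : Fin k} (h : j ≠ i)
    (a : Fin 11) : st (insert (i, a) P) j = st P j := by
  unfold st
  congr 1
  funext b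
  simp [h]

/-- A vertex `(i, u)`, `u ≠ 0`, is uncovered if this is so locally. -/
theorem unc {k : ℕ} (H : SimpleGraph (Fin k)) (P : Finset (Fin k × Fin 11)) (i : Fin k)
    (u : Fin 11) (hu : u ≠ 0) (h : nbm u &&& st P i = 0) :
    ∀ w ∈ P, ¬ (attach H).Adj w (i, u) := by
  rintro ⟨j, b⟩ hw hadj
  rcases hadj with ⟨h1, h2⟩ | ⟨_, h2, _⟩
  · simp only at h1 h2
    subst h1
    have h3 := (tree_adj u b).mp h2.symm
    have h4 := testBit_st P j b
    have h5 : (nbm u &&& st P j).testBit b = true := by
      rw [Nat.testBit_and, h3, h4]; simp [hw]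
    rw [h] at h5
    simp at h5
  · exact hu h2

theorem rl_legal {k : ℕ} (H : SimpleGraph (Fin k)) (P : Finset (Fin k × Fin 11)) (i : Fin k)
    {w : ℕ} (hw : w ∈ leaves) (h : rl (st P i) w = true) :
    ∃ a : Fin 11, (a : ℕ) = w ∧ Legal (attach H) P (i, a) := by
  obtain ⟨f1, f2, f3, f4, f5, f6⟩ := leaf_facts w hw
  refine ⟨⟨w, f1⟩, rfl, ?_, ?_⟩
  · unfold rl at h
    rw [Bool.and_eq_true] at h
    have h1 := testBit_st P i ⟨w, f1⟩
    simp only at h1
    rw [h1] at h
    simpa using h.1
  · unfold rl at h
    rw [Bool.and_eq_true, Bool.or_eq_true] at h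
    rcases h.2 with h2 | h2
    · refine ⟨(i, ⟨w, f1⟩), Or.inl rfl, unc H P i _ ?_ (by simpa using h2)⟩
      intro h; exact f3 (congrArg Fin.val h)
    · refine ⟨(i, ⟨supOf w, f2⟩), Or.inr (Or.inl ⟨rfl, ?_⟩), unc H P i _ ?_ (by simpa using h2)⟩
      · exact (tree_adj ⟨w, f1⟩ ⟨supOf w, f2⟩).mpr f6
      · intro h; exact f4 (congrArg Fin.val h)

/-! ### Counting -/

/-- The number of chosen vertices which are not support vertices. -/
def wc {k : ℕ} (P : Finset (Fin k × Fin 11)) : ℕ := ∑ x ∈ P, wst x.2

/-- The number of chosen support vertices. -/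
def sc {k : ℕ} (P : Finset (Fin k × Fin 11)) : ℕ := ∑ x ∈ P, (1 - wst x.2)

theorem wc_add_sc {k : ℕ} (P : Finset (Fin k × Fin 11)) : wc P + sc P = P.card := by
  unfold wc sc
  rw [← Finset.sum_add_distrib, Finset.card_eq_sum_ones]
  apply Finset.sum_congr rfl
  intro x _
  have := wst_le x.2
  omega

theorem wc_insert {k : ℕ} {P : Finset (Fin k × Fin 11)} {x : Fin k × Fin 11} (h : x ∉ P) :
    wc (insert x P) = wst x.2 + wc P := Finset.sum_insert h

theorem sc_insert_le {k : ℕ} (P : Finset (Fin k × Fin 11)) (x : Fin k × Fin 11) :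
    sc (insert x P) ≤ 1 + sc P := by
  by_cases h : x ∈ P
  · rw [Finset.insert_eq_of_mem h]; omega
  · unfold sc
    rw [Finset.sum_insert h]
    omega

/-- If there is no legal choice then all support vertices are chosen. -/
theorem sc_of_over {k : ℕ} (H : SimpleGraph (Fin k)) (P : Finset (Fin k × Fin 11))
    (h : ∀ v, ¬ Legal (attach H) P v) : 5 * k ≤ sc P := by
  have h1 : sc P = ∑ x : Fin k × Fin 11, (1 - wst x.2) := by
    unfold sc
    apply Finset.sum_subset (Finset.subset_univ _)
    rintro ⟨i, a⟩ _ hx
    by_contra hne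
    have ha : wst a = 0 := by
      by_contra h0
      apply hne
      have := wst_le a
      simp only
      omega
    obtain ⟨_, b, hb0, hab, hb⟩ := sup_facts a ha
    apply h (i, a)
    refine ⟨hx, (i, b), Or.inr (Or.inl ⟨rfl, hab⟩), ?_⟩
    rintro ⟨j, c⟩ hw hadj
    rcases hadj with ⟨h1, h2⟩ | ⟨_, h2, _⟩
    · simp only at h1 h2
      subst h1
      rw [hb c h2] at hw
      exact hx hw
    · exact hb0 h2
  rw [h1, Fintype.sum_prod_type]
  have h2 : ∑ a : Fin 11, (1 - wst a) = 5 := by decide
  simp only [h2]
  simp [mul_comm]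

theorem sc_bound {k : ℕ} (H : SimpleGraph (Fin k)) {b : Bool} {r : ℕ}
    {P : Finset (Fin k × Fin 11)} (h : DomForces (attach H) b r P) : 5 * k ≤ r + sc P := by
  induction h with
  | ended b r P h => have := sc_of_over H P h; omega
  | dom r P v hv _ ih => have := sc_insert_le P v; omega
  | sta r P _ ih =>
    by_cases hl : ∃ v, Legal (attach H) P v
    · obtain ⟨v, hv⟩ := hl
      have := ih v hv
      have := sc_insert_le P v
      omega
    · have := sc_of_over H P (fun v hv => hl ⟨v, hv⟩)
      omega

/-! ### The potential -/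

/-- The sum of the local potentials. -/
def sp {k : ℕ} (P : Finset (Fin k × Fin 11)) : ℕ := ∑ i, pot (st P i)

theorem sp_insert {k : ℕ} (P : Finset (Fin k × Fin 11)) (i : Fin k) (a : Fin 11) :
    sp (insert (i, a) P) + pot (st P i) = sp P + pot (st P i ||| 2 ^ (a : ℕ)) := by
  unfold sp
  rw [← Finset.add_sum_erase Finset.univ (fun j => pot (st (insert (i, a) P) j))
      (Finset.mem_univ i),
    ← Finset.add_sum_erase Finset.univ (fun j => pot (st P j)) (Finset.mem_univ i)]
  have : ∑ j ∈ Finset.univ.erase i, pot (st (insert (i, a) P) j) =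
      ∑ j ∈ Finset.univ.erase i, pot (st P j) := by
    apply Finset.sum_congr rfl
    intro j hj
    rw [st_insert_ne P (Finset.ne_of_mem_erase hj)]
  rw [this, st_insert_self]
  omega

/-- Staller's reply anywhere. -/
theorem reply_any {k : ℕ} (H : SimpleGraph (Fin k)) (P : Finset (Fin k × Fin 11)) (τ : ℕ)
    (hw : wc P < τ) (hp : 2 * τ ≤ sp P + 2 * wc P + 1) :
    ∃ x, Legal (attach H) P x ∧ 2 * τ ≤ sp (insert x P) + 2 * wc (insert x P) := by
  have key : ∃ i, pot (st P i) ≠ 0 ∧
      2 * τ ≤ sp P + pot (st P i) % 2 + 2 * wc P := by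
    by_cases h : 2 * τ ≤ sp P + 2 * wc P
    · have h1 : sp P ≠ 0 := by omega
      unfold sp at h1
      rw [Ne, Finset.sum_eq_zero_iff] at h1
      push Not at h1
      obtain ⟨i, _, hi⟩ := h1
      exact ⟨i, hi, by omega⟩
    · have h1 : sp P % 2 = 1 := by omega
      have h2 : ∃ i, pot (st P i) % 2 = 1 := by
        by_contra hno
        push Not at hno
        have : sp P % 2 = 0 := by
          unfold sp
          rw [Finset.sum_nat_mod]
          have : ∀ i : Fin k, pot (st P i) % 2 = 0 := fun i => by
            have := hno i; omega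
          simp [this]
        omega
      obtain ⟨i, hi⟩ := h2
      exact ⟨i, by omega, by omega⟩
  obtain ⟨i, hi, hle⟩ := key
  obtain ⟨w, hw1, hw2, hw3⟩ := chk_pass (st_lt P i) hi
  obtain ⟨a, ha, hl⟩ := rl_legal H P i hw1 hw2
  refine ⟨(i, a), hl, ?_⟩
  have h1 := sp_insert P i a
  have h2 := wc_insert hl.1
  have h3 : wst a = 1 := by rw [ha]; exact (leaf_facts w hw1).2.2.2.2.1
  simp only at h2
  rw [h3] at h2
  rw [← ha] at hw3
  omega

/-- Staller's reply to a choice of Dominator. -/
theorem reply {k : ℕ} (H : SimpleGraph (Fin k)) (P : Finset (Fin k × Fin 11)) (τ : ℕ)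
    (hp : 2 * τ ≤ sp P + 2 * wc P) (i : Fin k) (v : Fin 11) (hv : (i, v) ∉ P)
    (hw : wc (insert (i, v) P) < τ) :
    ∃ x, Legal (attach H) (insert (i, v) P) x ∧
      2 * τ ≤ sp (insert x (insert (i, v) P)) + 2 * wc (insert x (insert (i, v) P)) := by
  have hn : (st P i).testBit v = false := by rw [testBit_st]; simp [hv]
  have h1 := sp_insert P i v
  have h2 := wc_insert hv
  simp only at h2
  rcases chk_move (st_lt P i) v.2 hn with h | ⟨w, hw1, hw2, hw3⟩
  · exact reply_any H _ τ hw (by omega)
  · rw [← st_insert_self] at hw2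
    obtain ⟨a, ha, hl⟩ := rl_legal H _ i hw1 hw2
    refine ⟨(i, a), hl, ?_⟩
    have h3 := sp_insert (insert (i, v) P) i a
    have h4 := wc_insert hl.1
    have h5 : wst a = 1 := by rw [ha]; exact (leaf_facts w hw1).2.2.2.2.1
    simp only at h4
    rw [h5] at h4
    rw [← ha, ← st_insert_self] at hw3
    rw [← st_insert_self] at h1
    omega

theorem main {k : ℕ} (H : SimpleGraph (Fin k)) (τ : ℕ) :
    ∀ (r : ℕ) (P : Finset (Fin k × Fin 11)), DomForces (attach H) true r P →
      2 * τ ≤ sp P + 2 * wc P → 5 * k + τ ≤ r + P.card := by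
  intro r
  induction r using Nat.strong_induction_on with
  | _ r ih =>
    intro P h hp
    by_cases hw : τ ≤ wc P
    · have := sc_bound H h
      have := wc_add_sc P
      omega
    · push Not at hw
      generalize hb : true = b at h
      cases h with
      | ended b r P h =>
        obtain ⟨x, hx, _⟩ := reply_any H P τ hw (by omega)
        exact absurd hx (h x)
      | dom r P v hv h' =>
        obtain ⟨i, v⟩ := v
        have hc := Finset.card_insert_of_notMem hv.1
        by_cases hw' : τ ≤ wc (insert (i, v) P)
        · have := sc_bound H h'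
          have := wc_add_sc (insert (i, v) P)
          omega
        · push Not at hw'
          obtain ⟨x, hx, hx2⟩ := reply H P τ hp i v hv.1 hw'
          generalize hb' : false = b' at h'
          generalize hP : insert (i, v) P = P' at *
          cases h' with
          | ended b r P' h'' => exact absurd hx (h'' x)
          | dom r P' v' _ _ => cases hb'
          | sta r P' h'' =>
            have h3 := ih r (by omega) _ (h'' x hx) hx2
            have hc' := Finset.card_insert_of_notMem hx.1
            omega
      | sta r P h => cases hb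

theorem forces_card {V : Type} [Fintype V] [DecidableEq V] (G : SimpleGraph V) :
    ∀ (r : ℕ) (b : Bool) (P : Finset V), Pᶜ.card ≤ r → DomForces G b r P := by
  intro r
  induction r with
  | zero =>
    intro b P h
    apply DomForces.ended
    intro v hv
    have h1 : Pᶜ = ∅ := Finset.card_eq_zero.mp (by omega)
    have h2 : v ∈ Pᶜ := Finset.mem_compl.mpr hv.1
    rw [h1] at h2
    exact absurd h2 (Finset.notMem_empty v)
  | succ r ih =>
    intro b P h
    have hlt : ∀ v, Legal G P v → (insert v P)ᶜ.card ≤ r := by
      intro v hv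
      have h1 : (insert v P)ᶜ.card < Pᶜ.card := by
        apply Finset.card_lt_card
        rw [Finset.ssubset_iff_of_subset]
        · exact ⟨v, Finset.mem_compl.mpr hv.1, by simp⟩
        · intro x hx
          simp only [Finset.mem_compl, Finset.mem_insert, not_or] at hx ⊢
          exact hx.2
      omega
    by_cases hl : ∃ v, Legal G P v
    · obtain ⟨v, hv⟩ := hl
      cases b
      · exact DomForces.sta r P (fun v hv => ih _ _ (hlt v hv))
      · exact DomForces.dom r P v hv (ih _ _ (hlt v hv))
    · exact DomForces.ended _ _ _ (fun v hv => hl ⟨v, hv⟩)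

theorem le_gammaLg {V : Type} [Fintype V] [DecidableEq V] (G : SimpleGraph V) (m : ℕ)
    (h : ∀ r, DomForces G true r ∅ → m ≤ r) : m ≤ gammaLg G := by
  apply le_csInf
  · exact ⟨_, forces_card G _ true ∅ le_rfl⟩
  · exact fun r hr => h r hr

theorem bound {k : ℕ} (H : SimpleGraph (Fin k)) : 19 * k ≤ 2 * gammaLg (attach H) + 1 := by
  have h := le_gammaLg (attach H) (5 * k + 9 * k / 2) (fun r hr => by
    have h1 := main H (9 * k / 2) r ∅ hr (by
      have : sp (∅ : Finset (Fin k × Fin 11)) = 9 * k := by
        unfold sp
        have : ∀ i : Fin k, pot (st (∅ : Finset (Fin k × Fin 11)) i) = 9 := by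
          intro i
          have : st (∅ : Finset (Fin k × Fin 11)) i = 0 := by
            apply Nat.eq_of_testBit_eq
            intro j
            by_cases hj : j < 11
            · have := testBit_st (∅ : Finset (Fin k × Fin 11)) i ⟨j, hj⟩
              simp only at this
              rw [this]; simp
            · rw [Nat.zero_testBit]
              exact Nat.testBit_ofBits_ge _ _ (by omega)
          rw [this]
          decide +kernel
        simp [this, mul_comm]
      rw [this]
      omega)
    simpa using h1)
  omega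

/-! ### Connectedness -/

theorem tree_reach (a : Fin 11) : tree.Reachable a 0 := by
  have e : ∀ x y : Fin 11, tree.Adj x y → tree.Reachable x y := fun x y h => h.reachable
  fin_cases a
  · exact SimpleGraph.Reachable.refl _
  · exact e 1 0 (by decide)
  · exact (e 2 1 (by decide)).trans (e 1 0 (by decide))
  · exact (e 3 2 (by decide)).trans ((e 2 1 (by decide)).trans (e 1 0 (by decide)))
  · exact (e 4 1 (by decide)).trans (e 1 0 (by decide))
  · exact e 5 0 (by decide)
  · exact (e 6 5 (by decide)).trans (e 5 0 (by decide))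
  · exact e 7 0 (by decide)
  · exact (e 8 7 (by decide)).trans (e 7 0 (by decide))
  · exact e 9 0 (by decide)
  · exact (e 10 9 (by decide)).trans (e 9 0 (by decide))

theorem attach_connected {k : ℕ} (H : SimpleGraph (Fin k)) (h : H.Connected) :
    (attach H).Connected := by
  have h0 : Nonempty (Fin k) := h.nonempty
  have r1 : ∀ (i : Fin k) (a : Fin 11), (attach H).Reachable (i, a) (i, 0) := by
    intro i a
    let f : tree →g attach H := ⟨fun a => (i, a), fun h => Or.inl ⟨rfl, h⟩⟩
    exact (tree_reach a).map f
  have r2 : ∀ i j : Fin k, (attach H).Reachable (i, 0) (j, 0) := by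
    intro i j
    let f : H →g attach H := ⟨fun i => (i, 0), fun h => Or.inr ⟨rfl, rfl, h⟩⟩
    exact (h.preconnected i j).map f
  have : Nonempty (Fin k × Fin 11) := ⟨(h0.some, 0)⟩
  refine SimpleGraph.Connected.mk ?_
  rintro ⟨i, a⟩ ⟨j, b⟩
  exact (r1 i a).trans ((r2 i j).trans (r1 j b).symm)

instance {k : ℕ} (H : SimpleGraph (Fin k)) [DecidableRel H.Adj] :
    DecidableRel (attach H).Adj := fun x y => by
  unfold attach; infer_instance

theorem isTree_two : (attach (⊤ : SimpleGraph (Fin 2))).IsTree := by
  rw [SimpleGraph.isTree_iff_connected_and_card]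
  refine ⟨attach_connected _ SimpleGraph.connected_top, ?_⟩
  have h := SimpleGraph.sum_degrees_eq_twice_card_edges (attach (⊤ : SimpleGraph (Fin 2)))
  have h1 : ∑ v, (attach (⊤ : SimpleGraph (Fin 2))).degree v = 42 := by decide +kernel
  rw [h1] at h
  rw [Nat.card_eq_fintype_card, ← SimpleGraph.edgeFinset_card, Nat.card_eq_fintype_card]
  have : Fintype.card (Fin 2 × Fin 11) = 22 := by simp
  omega

/-- The inequality `γ_Lg(G) ≤ 6 n(G) / 7` fails for a tree on 22 vertices; and every graph `H` on
`k` vertices gives a graph on `11 k` vertices, without isolated vertices and connected if `H` is,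
with L-domination game number at least `(19 k - 1) / 2`. -/
theorem result :
    (∃ (V : Type) (_ : Fintype V) (_ : DecidableEq V) (G : SimpleGraph V), G.IsTree ∧
      (∀ v, ∃ w, G.Adj v w) ∧ Fintype.card V = 22 ∧ 19 ≤ gammaLg G ∧
      (6 / 7 : ℚ) * Fintype.card V < gammaLg G) ∧
    (∀ (k : ℕ) (H : SimpleGraph (Fin k)), Fintype.card (Fin k × Fin 11) = 11 * k ∧
      (∀ v, ∃ w, (attach H).Adj v w) ∧ (H.Connected → (attach H).Connected) ∧
      19 * k ≤ 2 * gammaLg (attach H) + 1) := by
  have hiso : ∀ (k : ℕ) (H : SimpleGraph (Fin k)), ∀ v, ∃ w, (attach H).Adj v w := by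
    rintro k H ⟨i, a⟩
    have : ∀ a : Fin 11, ∃ b, tree.Adj a b := by decide
    obtain ⟨b, hb⟩ := this a
    exact ⟨(i, b), Or.inl ⟨rfl, hb⟩⟩
  refine ⟨⟨Fin 2 × Fin 11, inferInstance, inferInstance, attach ⊤, isTree_two, hiso 2 ⊤,
    by simp, ?_, ?_⟩, fun k H => ⟨by simp [mul_comm], hiso k H, attach_connected H, bound H⟩⟩
  · have := bound (⊤ : SimpleGraph (Fin 2))
    omega
  · have h1 := bound (⊤ : SimpleGraph (Fin 2))
    have h2 : 19 ≤ gammaLg (attach (⊤ : SimpleGraph (Fin 2))) := by omega
    have h3 : ((19 : ℕ) : ℚ) ≤ (gammaLg (attach (⊤ : SimpleGraph (Fin 2))) : ℚ) := by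
      exact_mod_cast h2
    have h4 : Fintype.card (Fin 2 × Fin 11) = 22 := by simp
    rw [h4]
    push_cast at h3 ⊢
    linarith

end Pool.Agent.Results.MP_fca4fc_co.SixSeventhsFails
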